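import Mathlib

set_option autoImplicit false

namespace Pool.Agent.Results.MP_26893d_co.LinearLowerBound

open Finset

/-- The error of the perfect matching of `K_{n,n}` given by the bijection `M` (the edges `a (M a)`)
for the labelling `h`: the `l_1`-norm of `h(M) - (1/n) h(K_{n,n})`. -/
noncomputable def err {n k : ℕ} (h : Fin n → Fin n → Fin k → ℝ) (M : Fin n ≃ Fin n) : ℝ :=
  ∑ c, |(∑ a, h a (M a) c) - (1 / (n : ℝ)) * ∑ a, ∑ b, h a b c|

/-- For every `C` there are `k` and arbitrarily large `n` and a labelling of `K_{n,n}` by vectors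
of `l_1`-norm at most 1 in dimension `k`, such that every perfect matching has error larger than
`C √k`; in fact every perfect matching has error at least `k / 2`. -/
theorem result : ∀ C : ℝ, ∃ k : ℕ, 1 ≤ k ∧ ∀ n₀ : ℕ, ∃ n : ℕ, n₀ ≤ n ∧
    ∃ h : Fin n → Fin n → Fin k → ℝ, (∀ a b, ∑ c, |h a b c| ≤ 1) ∧
      ∀ M : Fin n ≃ Fin n, C * √(k : ℝ) < err h M ∧ (k : ℝ) / 2 ≤ err h M := by
  intro C
  obtain ⟨i, hi⟩ := exists_nat_gt (C ^ 2)
  have hi0 : 0 < i := by
    have h1 : (0 : ℝ) < i := lt_of_le_of_lt (sq_nonneg C) hi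
    exact_mod_cast h1
  refine ⟨4 * i, by omega, fun n₀ => ⟨2 * i * (2 * n₀ + 1), by nlinarith, ?_⟩⟩
  set m := n₀ with hm
  set n := 2 * i * (2 * m + 1) with hn
  set q := i * (2 * m + 1) ^ 2 with hq
  have hn0 : 0 < n := by rw [hn]; positivity
  have hcard : Fintype.card (Fin n × Fin n) = Fintype.card (Fin q × Fin (4 * i)) := by
    simp only [Fintype.card_prod, Fintype.card_fin, hn, hq]; ring
  let e : Fin n × Fin n ≃ Fin q × Fin (4 * i) := Fintype.equivOfCardEq hcard
  refine ⟨fun a b c => if (e (a, b)).2 = c then 1 else 0, ?_, ?_⟩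
  · intro a b
    have : ∀ c, |(if (e (a, b)).2 = c then (1 : ℝ) else 0)| = if (e (a, b)).2 = c then 1 else 0 := by
      intro c
      by_cases h : (e (a, b)).2 = c <;> simp [h]
    simp only [this]
    rw [Finset.sum_ite_eq, if_pos (Finset.mem_univ _)]
  · intro M
    have htot : ∀ c, ∑ a, ∑ b, (if (e (a, b)).2 = c then (1 : ℝ) else 0) = q := by
      intro c
      rw [← Fintype.sum_prod_type' (f := fun a b => if (e (a, b)).2 = c then (1 : ℝ) else 0)]
      rw [Equiv.sum_comp e (fun x => if x.2 = c then (1 : ℝ) else 0)]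
      rw [Fintype.sum_prod_type]
      simp
    have hqn : (1 / (n : ℝ)) * q = m + 1 / 2 := by
      have h1 : (0 : ℝ) < n := by exact_mod_cast hn0
      rw [one_div, inv_mul_eq_iff_eq_mul₀ h1.ne']
      rw [hn, hq]; push_cast; ring
    have hterm : ∀ c : Fin (4 * i), (1 / 2 : ℝ) ≤
        |(∑ a, (if (e (a, M a)).2 = c then (1 : ℝ) else 0)) -
          (1 / (n : ℝ)) * ∑ a, ∑ b, (if (e (a, b)).2 = c then (1 : ℝ) else 0)| := by
      intro c
      rw [htot c, hqn]
      have hint : (∑ a, (if (e (a, M a)).2 = c then (1 : ℝ) else 0)) =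
          ((univ.filter (fun a => (e (a, M a)).2 = c)).card : ℝ) := by
        rw [Finset.sum_boole]
      rw [hint]
      generalize (univ.filter (fun a => (e (a, M a)).2 = c)).card = z
      rcases le_or_gt z m with hz | hz
      · have h2 : (z : ℝ) ≤ m := by exact_mod_cast hz
        rw [abs_of_nonpos (by linarith)]
        linarith
      · have h2 : (m : ℝ) + 1 ≤ z := by exact_mod_cast hz
        rw [abs_of_nonneg (by linarith)]
        linarith
    have hsum : ((4 * i : ℕ) : ℝ) / 2 ≤ err (fun a b c => if (e (a, b)).2 = c then 1 else 0) M := by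
      unfold err
      have h3 : ∑ c : Fin (4 * i), (1 / 2 : ℝ) = ((4 * i : ℕ) : ℝ) / 2 := by
        rw [Finset.sum_const, Finset.card_univ, Fintype.card_fin, nsmul_eq_mul]; ring
      rw [← h3]
      exact Finset.sum_le_sum (fun c _ => hterm c)
    refine ⟨lt_of_lt_of_le ?_ hsum, hsum⟩
    have hk : (0 : ℝ) < ((4 * i : ℕ) : ℝ) := by
      have : 0 < 4 * i := by omega
      exact_mod_cast this
    have hs : √((4 * i : ℕ) : ℝ) * √((4 * i : ℕ) : ℝ) = ((4 * i : ℕ) : ℝ) := Real.mul_self_sqrt hk.le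
    have hsp : 0 < √((4 * i : ℕ) : ℝ) := Real.sqrt_pos.mpr hk
    have hC : C < √((4 * i : ℕ) : ℝ) / 2 := by
      rcases lt_or_ge C 0 with h4 | h4
      · linarith
      · have h5 : C ^ 2 < (√((4 * i : ℕ) : ℝ) / 2) ^ 2 := by
          rw [div_pow, Real.sq_sqrt hk.le]
          push_cast
          linarith
        exact lt_of_pow_lt_pow_left₀ 2 (by positivity) h5
    nlinarith

end Pool.Agent.Results.MP_26893d_co.LinearLowerBound
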